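import Pool.Agent.H90.STE.Stmts
import Pool.Agent.H68.STK.CN1

/-!
# Sticky families of lines with a random time: conservation of differences, first inequality
-/

set_option autoImplicit false

namespace Pool.STE

open Finset Real
open Pool.Agent.H49.Ent Pool.Agent.H32.Dense Pool.STK Pool.KA

namespace CAaux

/-- The time and the beginning of its window. -/
lemma time_bd {m J : ℕ} (F : Fam m J) (k : ℕ) (hk : k ≤ J) (ω : F.Ω) :
    0 ≤ F.t ω ∧ F.t ω ≤ 1 ∧ 0 ≤ F.t ω - (F.T1 k ω : ℝ) / 2 ^ k ∧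
      F.t ω - (F.T1 k ω : ℝ) / 2 ^ k ≤ (2 ^ k)⁻¹ := by
  have hJ : (0 : ℝ) < 2 ^ J := by positivity
  have hkp : (0 : ℝ) < 2 ^ k := by positivity
  have hjk : (0 : ℝ) < 2 ^ (J - k) := by positivity
  have hJk : (2 : ℝ) ^ J = 2 ^ (J - k) * 2 ^ k := by
    rw [← pow_add, Nat.sub_add_cancel hk]
  have h1 : F.T1 k ω * 2 ^ (J - k) ≤ F.T ω := Nat.div_mul_le_self _ _
  have h2 : F.T ω < (F.T1 k ω + 1) * 2 ^ (J - k) := by
    have := Nat.lt_div_mul_add (a := F.T ω) (b := 2 ^ (J - k)) (by positivity)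
    unfold Fam.T1
    linarith
  have h1' : (F.T1 k ω : ℝ) * 2 ^ (J - k) ≤ F.T ω := by exact_mod_cast h1
  have h2' : (F.T ω : ℝ) ≤ ((F.T1 k ω : ℝ) + 1) * 2 ^ (J - k) := by exact_mod_cast h2.le
  have h3 : (F.T ω : ℝ) ≤ 2 ^ J := by exact_mod_cast (F.tim ω).le
  unfold Fam.t
  refine ⟨by positivity, ?_, ?_, ?_⟩
  · rw [div_le_one hJ]
    exact h3
  · rw [sub_nonneg, div_le_div_iff₀ hkp hJ, hJk]
    have := mul_le_mul_of_nonneg_right h1' hkp.le
    linarith
  · rw [sub_le_iff_le_add, div_le_iff₀ hJ, hJk]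
    have e : ((2 ^ k)⁻¹ + (F.T1 k ω : ℝ) / 2 ^ k) * (2 ^ (J - k) * 2 ^ k) =
        ((F.T1 k ω : ℝ) + 1) * 2 ^ (J - k) := by
      field_simp
      ring
    rw [e]
    exact h2'

end CAaux

/-- Conservation of differences, first inequality. -/
theorem ca_thm : CAStmt := by
  intro m J F k r hkJ
  set q := dbl F.p (bT F k r) with hq
  have hp := F.isLaw
  have hq0 : ∀ w, 0 ≤ q w := dbl_nonneg hp.nonneg
  have hm1 : Marg q F.p (fun w => w.1) := dbl_fst hp.nonneg
  have hm2 : Marg q F.p (fun w => w.2) := dbl_snd hp.nonneg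
  have hq1 : ∑ w, q w = 1 := by rw [hm1.sum]; exact hp.sum_one
  -- support
  have hsup : ∀ w, 0 < q w → (fl (r * k) (F.u w.1) = fl (r * k) (F.u w.2) ∧
      fl (r * k) (F.d w.1) = fl (r * k) (F.d w.2)) ∧ F.T w.1 = F.T w.2 ∧ F.Z w.1 = F.Z w.2 := by
    intro w hw
    have h := dbl_eq hp.nonneg hw
    unfold bT Fam.L Fam.W at h
    simp only [Prod.mk.injEq] at h
    exact h
  have hW : ∀ w, 0 < q w → F.W w.1 = F.W w.2 := by
    intro w hw
    unfold Fam.W
    rw [(hsup w hw).2.1, (hsup w hw).2.2]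
  have ht : ∀ w, 0 < q w → F.t w.1 = F.t w.2 := by
    intro w hw
    unfold Fam.t
    rw [(hsup w hw).2.1]
  have ht1 : ∀ w, 0 < q w → F.T1 k w.1 = F.T1 k w.2 := by
    intro w hw
    unfold Fam.T1
    rw [(hsup w hw).2.1]
  have hd : ∀ w, 0 < q w → ∀ i, |2 ^ (r * k) * (F.d w.2 i - F.d w.1 i)| ≤ 1 := by
    intro w hw i
    have h := congrFun (hsup w hw).1.2 i
    have h1 := CN1.abs_lt_of_floor h
    rw [abs_sub_comm] at h1
    rw [mul_sub]
    exact h1
  have hu : ∀ w, 0 < q w → ∀ i, |2 ^ (r * k) * (F.u w.2 i - F.u w.1 i)| ≤ 1 := by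
    intro w hw i
    have h := congrFun (hsup w hw).1.1 i
    have h1 := CN1.abs_lt_of_floor h
    rw [abs_sub_comm] at h1
    rw [mul_sub]
    exact h1
  -- step 1
  have s1 : CH q (zT F k ((r + 1) * k))
      (fun w => (F.X ((r + 1) * k) w.1, F.W w.1)) ≤
      CH q (fun w => F.X ((r + 1) * k) w.2)
        (fun w => (F.X ((r + 1) * k) w.1, F.W w.1)) + cc m := by
    refine (CH_le_add hq0 _ (fun w => F.X ((r + 1) * k) w.2) _).trans
      (add_le_add (le_refl _) ?_)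
    -- the error in one coordinate
    have herr : ∀ w, 0 < q w → ∀ i, |((zT F k ((r + 1) * k) w i : ℤ) : ℝ) -
        (((F.X ((r + 1) * k) w.2 i : ℤ) : ℝ) - ((F.X ((r + 1) * k) w.1 i : ℤ) : ℝ))| ≤
        3 := by
      intro w hw i
      obtain ⟨b1, b2, b3, b4⟩ := CAaux.time_bd F k hkJ w.1
      have e1 : |2 ^ ((r + 1) * k) * (F.x1 k w.2 i - F.x1 k w.1 i) -
          (2 ^ ((r + 1) * k) * F.x w.2 i - 2 ^ ((r + 1) * k) * F.x w.1 i)| ≤ 1 := by
        have e2 : 2 ^ ((r + 1) * k) * (F.x1 k w.2 i - F.x1 k w.1 i) -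
            (2 ^ ((r + 1) * k) * F.x w.2 i - 2 ^ ((r + 1) * k) * F.x w.1 i) =
            -((F.t w.1 - (F.T1 k w.1 : ℝ) / 2 ^ k) * 2 ^ k) *
              (2 ^ (r * k) * (F.d w.2 i - F.d w.1 i)) := by
          unfold Fam.x1 Fam.x
          rw [Nat.add_mul, one_mul, pow_add, ← ht w hw, ← ht1 w hw]
          ring
        rw [e2, abs_mul, abs_neg]
        have e3 : |(F.t w.1 - (F.T1 k w.1 : ℝ) / 2 ^ k) * 2 ^ k| ≤ 1 := by
          rw [abs_of_nonneg (mul_nonneg b3 (by positivity))]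
          have hk : (0 : ℝ) < 2 ^ k := by positivity
          have e4 : (F.t w.1 - (F.T1 k w.1 : ℝ) / 2 ^ k) * 2 ^ k ≤ (2 ^ k)⁻¹ * 2 ^ k :=
            mul_le_mul_of_nonneg_right b4 hk.le
          rwa [inv_mul_cancel₀ hk.ne'] at e4
        calc |(F.t w.1 - (F.T1 k w.1 : ℝ) / 2 ^ k) * 2 ^ k| *
              |2 ^ (r * k) * (F.d w.2 i - F.d w.1 i)| ≤ 1 * 1 :=
              mul_le_mul e3 (hd w hw i) (abs_nonneg _) zero_le_one
          _ = 1 := one_mul 1
      have a1 := Int.floor_le (2 ^ ((r + 1) * k) * (F.x1 k w.2 i - F.x1 k w.1 i))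
      have a2 := Int.lt_floor_add_one (2 ^ ((r + 1) * k) * (F.x1 k w.2 i - F.x1 k w.1 i))
      have a3 := Int.floor_le (2 ^ ((r + 1) * k) * F.x w.2 i)
      have a4 := Int.lt_floor_add_one (2 ^ ((r + 1) * k) * F.x w.2 i)
      have a5 := Int.floor_le (2 ^ ((r + 1) * k) * F.x w.1 i)
      have a6 := Int.lt_floor_add_one (2 ^ ((r + 1) * k) * F.x w.1 i)
      have c1 : zT F k ((r + 1) * k) w i =
          ⌊2 ^ ((r + 1) * k) * (F.x1 k w.2 i - F.x1 k w.1 i)⌋ := rfl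
      have c2 : ∀ ω, F.X ((r + 1) * k) ω i = ⌊2 ^ ((r + 1) * k) * F.x ω i⌋ := fun _ => rfl
      rw [c1, c2, c2]
      rw [abs_le] at e1 ⊢
      constructor <;> linarith [e1.1, e1.2]
    refine (CH_le_vec hq0 hq1 _ _ (fun _ => (6 : ℝ)) ?_).trans
      (CN1.ex_le hq1 (by norm_num) (by norm_num))
    intro w w' hw hw' hww i
    simp only [Prod.mk.injEq] at hww
    have b1 := herr w hw i
    have b2 := herr w' hw' i
    rw [hww.1, hww.2.1] at b1
    rw [abs_le] at b1 b2 ⊢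
    push_cast
    constructor <;> linarith [b1.1, b1.2, b2.1, b2.2]
  -- step 2
  have s2 : CH q (fun w => F.X ((r + 1) * k) w.2)
        (fun w => (F.X ((r + 1) * k) w.1, F.W w.1)) ≤
      CH q (fun w => F.X ((r + 1) * k) w.2)
        (fun w => (F.X (r * k) w.1, F.W w.1)) := by
    refine CH_mono_cond hq0 ?_
    intro w w' _ _ h
    simp only [Prod.mk.injEq] at h ⊢
    exact ⟨CN1.fl_det (Nat.mul_le_mul_right k (Nat.le_succ r)) h.1, h.2⟩
  -- step 3
  have s3 : CH q (fun w => F.X ((r + 1) * k) w.2)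
        (fun w => (F.X (r * k) w.1, F.W w.1)) ≤
      CH q (fun w => F.X ((r + 1) * k) w.2)
        (fun w => (F.X (r * k) w.2, F.W w.2)) + cc m := by
    refine (CH_le_add hq0 _ (fun w => F.X (r * k) w.2) _).trans ?_
    rw [add_comm]
    refine add_le_add ?_ ?_
    · refine CH_mono_cond hq0 ?_
      intro w w' hw hw' h
      simp only [Prod.mk.injEq] at h ⊢
      refine ⟨h.1, ?_⟩
      rw [← hW w hw, ← hW w' hw']
      exact h.2.2
    · have herr : ∀ w, 0 < q w → ∀ i,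
          |((F.X (r * k) w.2 i - F.X (r * k) w.1 i : ℤ) : ℝ)| ≤ 3 := by
        intro w hw i
        obtain ⟨b1, b2, b3, b4⟩ := CAaux.time_bd F k hkJ w.1
        have e1 : |2 ^ (r * k) * F.x w.2 i - 2 ^ (r * k) * F.x w.1 i| ≤ 2 := by
          have e2 : 2 ^ (r * k) * F.x w.2 i - 2 ^ (r * k) * F.x w.1 i =
              2 ^ (r * k) * (F.u w.2 i - F.u w.1 i) +
                F.t w.1 * (2 ^ (r * k) * (F.d w.2 i - F.d w.1 i)) := by
            unfold Fam.x
            rw [← ht w hw]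
            ring
          rw [e2]
          refine (abs_add_le _ _).trans ?_
          rw [abs_mul (F.t w.1), abs_of_nonneg b1]
          have e3 : F.t w.1 * |2 ^ (r * k) * (F.d w.2 i - F.d w.1 i)| ≤ 1 * 1 :=
            mul_le_mul b2 (hd w hw i) (abs_nonneg _) zero_le_one
          linarith [hu w hw i]
        have e4 := CN1.floor_sub e1
        have c2 : ∀ ω, F.X (r * k) ω i = ⌊2 ^ (r * k) * F.x ω i⌋ := fun _ => rfl
        rw [c2, c2]
        linarith
      refine (CH_le_vec hq0 hq1 _ _ (fun _ => (6 : ℝ)) ?_).trans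
        (CN1.ex_le hq1 (by norm_num) (by norm_num))
      intro w w' hw hw' hww i
      simp only [Prod.mk.injEq] at hww
      have b1 := herr w hw i
      have b2 := herr w' hw' i
      rw [hww.1] at b1
      rw [abs_le] at b1 b2 ⊢
      push_cast at b1 b2 ⊢
      constructor <;> linarith [b1.1, b1.2, b2.1, b2.2]
  -- step 4
  have s4 : CH q (fun w => F.X ((r + 1) * k) w.2)
        (fun w => (F.X (r * k) w.2, F.W w.2)) =
      CH F.p (F.X ((r + 1) * k)) (fun ω => (F.X (r * k) ω, F.W ω)) :=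
    hm2.CH (F.X ((r + 1) * k)) (fun ω => (F.X (r * k) ω, F.W ω))
  linarith

end Pool.STE
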